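import Mathlib
import Pool.Agent.V11319.GPUpperC

set_option autoImplicit false

open Filter Topology

namespace Pool.Agent.Results.MP_9f86c8_nt.StrictInequality

/-- `A` contains no geometric progression: no pairwise distinct `a, b, c ∈ A` with
`a c = b ^ 2`. -/
def GPFree (A : Set ℕ) : Prop :=
  ¬ ∃ a ∈ A, ∃ b ∈ A, ∃ c ∈ A, a ≠ b ∧ b ≠ c ∧ a ≠ c ∧ a * c = b ^ 2

/-- the upper density of `A` -/
noncomputable def upperDensity (A : Set ℕ) : ℝ :=
  limsup (fun N : ℕ => ((A ∩ Set.Icc 1 N).ncard : ℝ) / N) atTop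

/-- the supremum of the upper densities of the geometric progression free sets of positive
integers -/
noncomputable def alphaBar : ℝ :=
  sSup {d : ℝ | ∃ A : Set ℕ, (∀ n ∈ A, 1 ≤ n) ∧ GPFree A ∧ d = upperDensity A}

/-- the supremum of the asymptotic densities of the geometric progression free sets of positive
integers which have an asymptotic density -/
noncomputable def alpha : ℝ :=
  sSup {d : ℝ | ∃ A : Set ℕ, (∀ n ∈ A, 1 ≤ n) ∧ GPFree A ∧
    Tendsto (fun N : ℕ => ((A ∩ Set.Icc 1 N).ncard : ℝ) / N) atTop (𝓝 d)}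

open Pool.Agent.H413R3.KG Pool.Agent.V11319.GPU

lemma gpf_iff {A : Set ℕ} (hA : ∀ n ∈ A, 1 ≤ n) : GPFree A ↔ GPF 3 A := by
  rw [gpf3_iff]
  constructor
  · intro h a ha b hb c hc heq
    by_contra hne
    have ha1 := hA a ha
    have hb1 := hA b hb
    have hc1 := hA c hc
    refine h ⟨a, ha, b, hb, c, hc, hne, ?_, ?_, heq.symm⟩
    · rintro rfl
      apply hne
      have h1 : b * b = a * b := by rw [← heq]; ring
      exact (Nat.eq_of_mul_eq_mul_right (by omega) h1).symm
    · rintro rfl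
      apply hne
      have h1 : b ^ 2 = a ^ 2 := by rw [heq]; ring
      exact (Nat.pow_left_injective (by norm_num : 2 ≠ 0) h1).symm
  · rintro h ⟨a, ha, b, hb, c, hc, h1, _, _, heq⟩
    exact h1 (h a ha b hb c hc heq.symm)

/-- **`α < ᾱ`**, with an explicit gap. -/
theorem result : alpha < alphaBar ∧ alpha + 1 / 400000 ≤ alphaBar := by
  suffices h : alpha + 1 / 400000 ≤ alphaBar from ⟨by linarith, h⟩
  obtain ⟨K, hK⟩ : ∃ K : ℕ, K = 360001 := ⟨_, rfl⟩
  have hbdd : BddAbove {d : ℝ | ∃ A : Set ℕ, (∀ n ∈ A, 1 ≤ n) ∧ GPFree A ∧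
      d = upperDensity A} := by
    refine ⟨1, ?_⟩
    rintro d ⟨A, _, _, rfl⟩
    refine Filter.limsup_le_of_le ?_ (Eventually.of_forall fun N => cnt_div_le_one A N)
    refine Filter.IsBoundedUnder.isCoboundedUnder_le ?_
    exact Filter.isBoundedUnder_of ⟨0, fun N => by positivity⟩
  have hup : alpha ≤ M 3 K := by
    apply csSup_le
    · refine ⟨0, ∅, by simp, ?_, ?_⟩
      · rintro ⟨a, ha, _⟩
        exact ha
      · simp
    · rintro d ⟨A, hA, hg, hd⟩
      exact dens_le_M (le_refl 3) K hA ((gpf_iff hA).1 hg) hd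
  have hlow : M 3 K + 1 / 400000 ≤ alphaBar := by
    apply le_of_forall_pos_le_add
    intro ε hε
    obtain ⟨T, hT, hg, hTM⟩ := exists_M (le_refl 3) K hε
    obtain ⟨γ, hγ⟩ := fr_dens_exists (le_refl 3) K
    obtain ⟨A, hA1, hA2, hA3⟩ := glue_upper (c := γ * (W T + 1 / 156)) fun ε hε =>
      exists_large (by omega) hT hg hγ hε
    have h1 : γ * (W T + 1 / 156) ≤ alphaBar := by
      refine hA3.trans ?_
      exact le_csSup hbdd ⟨A, hA1, (gpf_iff hA1).2 hA2, rfl⟩
    have h2 := fr_dens_ge (le_refl 3) (by omega) hγ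
    have h3 : 1 / 1200 ≤ P K := by rw [hK]; exact P_val
    have h4 : P K * W T ≤ 1 := PW_le_one hT
    have h5 : 0 ≤ W T := W_nonneg T
    have h6 : P K ≤ 1 := by
      have := PW_le_one (K := K) (T := {1}) (by
        rintro x rfl
        rw [mem_smooth_iff]
        simp)
      have hW : W ({1} : Set ℕ) = 1 := by
        have := W_finset {1}
        simpa using this
      rw [hW, mul_one] at this
      exact this
    have h7 : P K * (1 - 1 / ((K : ℝ) - 1)) * (W T + 1 / 156) ≤
        γ * (W T + 1 / 156) := mul_le_mul_of_nonneg_right h2 (by positivity)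
    have h8 : ((K : ℝ) - 1) = 360000 := by rw [hK]; norm_num
    rw [h8] at h7
    have h9 : P K * (1 - 1 / 360000) * (W T + 1 / 156) =
        P K * W T + P K / 156 - (P K * W T + P K / 156) / 360000 := by ring
    rw [h9] at h7
    linarith
  linarith

end Pool.Agent.Results.MP_9f86c8_nt.StrictInequality
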